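import Pool.Agent.Helper61.QL.Goals

/-!
# Project QL (MP_0ebdb3_gt): packet QL-PRD
-/

set_option autoImplicit false

namespace Pool.Agent.Helper40.QL

open Pool.Agent Pool.Agent.Helper61 Pool.Agent.Helper61.QG Pool.Agent.Helper61.QL
open Pool.Agent.Helper61.QM (Model Mm)

theorem polL_zero : polL (fun _ => 0) = QS.pol := by
  funext x
  unfold polL shL
  rw [add_zero]

/-- Packet QL-PRD. -/
theorem goalPRD (hSP : QS.G_SP) : G_PRD := by
  intro gM hM hprod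
  obtain ⟨H, K, hH, hK, heq⟩ := hprod
  have hO : ∀ P : QS.W, QS.orb 0 P ∈ (QM.Mm 0).O P := fun P => ⟨1, by rw [one_smul]; rfl⟩
  have hMq : QS.IsBase 0 gM :=
    ⟨hM.smooth, hM.symm, fun ζ hζ P hP u hu u' hu' => hM.inv _ ⟨ζ, hζ, rfl⟩ P hP u hu u' hu',
      fun P hP u hu => hM.horiz P hP _ (hO P) u hu,
      fun P hP u hu h => hM.pos P hP u hu (fun ⟨τ, hτ⟩ => h τ hτ)⟩
  refine ⟨fun _ => 0, ⟨contDiff_const, fun _ _ => rfl, fun _ => rfl⟩, fun x hx => ?_⟩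
  rw [polL_zero]
  exact hSP gM H K hMq hH hK heq x hx

end Pool.Agent.Helper40.QL
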